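import Pool.Agent.K7.H48.AF.Main

/-!
# Canonical Ramsey finiteness and Ramsey finiteness differ for every number of colours

There is a transitive model of ZF with a set `X` for which `CRT(X)` fails, although `RT²ₙ(X)` holds
for all `n ≥ 2`.

The definitions are in `Pool.Agent.K7.H48.AF.Defs` (`RT`, `CRT`) and `Pool.Agent.W868.Defs` (`IsZF`).
The model is a symmetric extension by sets `B i` (`i` a natural number) of Cohen reals, in which
all permutations of the blocks are used, and `X` is the set of the `B i`: a colouring of the pairs
with the support `S` is constant on the pairs of blocks outside `S`, and no infinite subset of `X`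
has a linear order.
-/

namespace Pool.Agent.Results.MP_5f5b92_lc.StrictForAllN

open Pool.Agent.W868 Pool.Agent.K7.H48.AF

/-- There is a countable transitive model of ZF with a set `X` such that in the model `CRT(X)`
fails and `RT²ₙ(X)` holds for all `n ≥ 2`. -/
theorem result : ∃ M : Set ZFSet.{0}, M.Countable ∧ IsZF M ∧
    ∃ X ∈ M, ¬ CRT M X ∧ ∀ n ≥ 2, RT M n X := by
  obtain ⟨M, h1, h2, X, hX, h3, h4⟩ := exists_model
  exact ⟨M, h1, h2, X, hX, h3, fun n _ => h4 n⟩

end Pool.Agent.Results.MP_5f5b92_lc.StrictForAllN
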